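import Pool.Agent.U745.AF.Reduce
import Pool.Agent.U745.AF.CohB

/-!
# Geometric origin of lisse sheaves in characteristic `p`: reduction to affine space over `𝔽_p`

All fields are subfields of a fixed algebraically closed field `Ω` of characteristic `p` (a universal domain).
For a subfield `F` the group `Gam F = Aut(Ω/F)` acts on the algebraic closure of `F` in `Ω` through the absolute
Galois group of `F`; a continuous representation `ρ` of `Gam F` over `PadicAlgCl ℓ`, the algebraic closure of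
`ℚ_ℓ` (`Cont`, for the Krull topology), is therefore the same as a continuous representation of the absolute
Galois group.  If `R` is a ring with field of fractions `F`, `ρ` is lisse on `Spec R` (`Lisse R ρ`) if the
inertia groups of all prime ideals of the integral closure of `R` in `Ω` act trivially.
-/

set_option autoImplicit false

open Pool.Agent.U745.FM Pool.Agent.U745.AF

namespace Pool.Agent.Results.MP_80bee4_ag.AffineSpaceSuffices

variable {Ω : Type} [Field Ω]

section

variable {ℓ : ℕ} [Fact ℓ.Prime]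

variable (ℓ) in
/-- The cyclotomic character: the action on the roots of unity in `Ω` of order a power of `ℓ`. -/
noncomputable def chi (F : Subfield Ω) : Gam F →* PadicAlgCl ℓ :=
  ((((algebraMap ℚ_[ℓ] (PadicAlgCl ℓ)).comp (PadicInt.Coe.ringHom (p := ℓ))).toMonoidHom.comp
    (Units.coeHom ℤ_[ℓ])).comp (cyclotomicCharacter Ω ℓ)).comp (Gam F).subtype

/-- The Tate twist `ρ(n)`. -/
noncomputable def twist (n : ℤ) {F : Subfield Ω} {V : Type} [AddCommGroup V]
    [Module (PadicAlgCl ℓ) V] (ρ : Representation (PadicAlgCl ℓ) (Gam F) V) :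
    Representation (PadicAlgCl ℓ) (Gam F) V where
  toFun g := (chi ℓ F g) ^ n • ρ g
  map_one' := by rw [map_one, map_one, one_zpow, one_smul]
  map_mul' g h := by
    rw [map_mul, map_mul, mul_zpow, smul_mul_smul_comm]

/-- `ρ` is a subquotient of `H^n(Y_Ω, E) ⊗_E PadicAlgCl ℓ` for a separated scheme `Y` of finite type over
`F`, an `n` and a finite extension `E` of `ℚ_ℓ`: there are a subquotient `V₀` of `H^n(Y_Ω, E)` and an
equivariant surjection of `V₀ ⊗_E PadicAlgCl ℓ` onto `V`. -/
def Geometric (F : Subfield Ω) (V : Type) [AddCommGroup V] [Module (PadicAlgCl ℓ) V]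
    (ρ : Representation (PadicAlgCl ℓ) (Gam F) V) : Prop :=
  ∃ (E : Type) (_ : NormedField E) (_ : NormedAlgebra ℚ_[ℓ] E) (_ : FiniteDimensional ℚ_[ℓ] E)
    (ι : E →ₐ[ℚ_[ℓ]] PadicAlgCl ℓ) (V₀ : Type) (_ : AddCommGroup V₀) (_ : Module E V₀)
    (ρ₀ : Representation E (Gam F) V₀), Subquotient F V₀ ρ₀ ∧
    ∃ f : V₀ →+ V, (∀ (a : E) (v : V₀), f (a • v) = ι a • f v) ∧
      (∀ (g : Gam F) (v : V₀), f (ρ₀ g v) = ρ g (f v)) ∧
      Submodule.span (PadicAlgCl ℓ) (Set.range f) = ⊤

/-- `ρ` is lisse on some affine model `Spec k[s]`, `s` finite, of the function field `F` over `k`. -/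
def ExtendsOver (k : Subfield Ω) {F : Subfield Ω} {V : Type} [AddCommGroup V]
    [Module (PadicAlgCl ℓ) V] (ρ : Representation (PadicAlgCl ℓ) (Gam F) V) : Prop :=
  ∃ s : Finset Ω, F = fieldAdj k (s : Set Ω) ∧ Lisse (ringAdj k (s : Set Ω)) ρ

/-- `F` is the function field of a smooth connected variety of dimension `n` over `k`, that is, a finite
separable extension of a field `k(t_1, …, t_n)`, `t_1, …, t_n` algebraically independent. -/
def FunctionField (k F : Subfield Ω) (n : ℕ) : Prop :=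
  ∃ (t : Fin n → Ω) (θ : Ω), AlgebraicIndependent k t ∧
    IsSeparable (fieldAdj k (Set.range t)) θ ∧ F = fieldAdj k (insert θ (Set.range t))

variable (ℓ) in
/-- **Q1 for the smooth varieties over `k` with function field `F`**: a Tate twist of every irreducible
lisse sheaf with determinant of finite order on such a variety is geometric. -/
def Q1 (k F : Subfield Ω) : Prop :=
  ∀ (V : Type) [AddCommGroup V] [Module (PadicAlgCl ℓ) V] [FiniteDimensional (PadicAlgCl ℓ) V]
    (ρ : Representation (PadicAlgCl ℓ) (Gam F) V), Irr ρ → Cont ρ → DetFinite ρ →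
    ExtendsOver k ρ → ∃ n : ℤ, Geometric F V (twist n ρ)

variable (ℓ) in
/-- **Q1 for affine space** `Spec 𝔽_p[t_1, …, t_d]` over the prime field. -/
def Q1Affine {d : ℕ} (t : Fin d → Ω) : Prop :=
  ∀ (V : Type) [AddCommGroup V] [Module (PadicAlgCl ℓ) V] [FiniteDimensional (PadicAlgCl ℓ) V]
    (ρ : Representation (PadicAlgCl ℓ) (Gam (fieldAdj ⊥ (Set.range t))) V), Irr ρ → Cont ρ →
    DetFinite ρ → Lisse (ringAdj ⊥ (Set.range t)) ρ →
    ∃ n : ℤ, Geometric (fieldAdj ⊥ (Set.range t)) V (twist n ρ)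

theorem geometric_res {F F' : Subfield Ω} (h : F ≤ F') (V : Type) [AddCommGroup V]
    [Module (PadicAlgCl ℓ) V] (ρ : Representation (PadicAlgCl ℓ) (Gam F) V)
    (hρ : Geometric F V ρ) : Geometric F' V (res h ρ) := by
  obtain ⟨E, i1, i2, i3, ι, V₀, i4, i5, ρ₀, h1, f, h2, h3, h4⟩ := hρ
  exact ⟨E, i1, i2, i3, ι, V₀, i4, i5, res h ρ₀, subquotient_res h V₀ ρ₀ h1, f, h2,
    fun g v => h3 ⟨g.1, Gam_mono h g.2⟩ v, h4⟩

theorem geometric_quot {F : Subfield Ω} {V W : Type} [AddCommGroup V] [Module (PadicAlgCl ℓ) V]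
    [AddCommGroup W] [Module (PadicAlgCl ℓ) W] {ρ : Representation (PadicAlgCl ℓ) (Gam F) V}
    {σ : Representation (PadicAlgCl ℓ) (Gam F) W} (u : W →ₗ[PadicAlgCl ℓ] V)
    (hu : Function.Surjective u) (he : ∀ g w, u (σ g w) = ρ g (u w)) (hσ : Geometric F W σ) :
    Geometric F V ρ := by
  obtain ⟨E, i1, i2, i3, ι, V₀, i4, i5, ρ₀, h1, f, h2, h3, h4⟩ := hσ
  refine ⟨E, i1, i2, i3, ι, V₀, i4, i5, ρ₀, h1, u.toAddMonoidHom.comp f, ?_, ?_, ?_⟩
  · intro a v
    show u (f (a • v)) = ι a • u (f v)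
    rw [h2, map_smul]
  · intro g v
    show u (f (ρ₀ g v)) = ρ g (u (f v))
    rw [h3, he]
  · have h5 : Set.range (u.toAddMonoidHom.comp f) = u '' Set.range f := by
      ext z
      constructor
      · rintro ⟨x, rfl⟩
        exact ⟨_, ⟨x, rfl⟩, rfl⟩
      · rintro ⟨_, ⟨x, rfl⟩, rfl⟩
        exact ⟨x, rfl⟩
    rw [h5, Submodule.span_image, h4, Submodule.map_top, LinearMap.range_eq_top]
    exact hu

end

theorem bot_finite (p : ℕ) [Fact p.Prime] [CharP Ω p] : ((⊥ : Subfield Ω) : Set Ω).Finite := by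
  let f : ZMod p →+* Ω := ZMod.castHom (dvd_refl p) Ω
  have h1 : (⊥ : Subfield Ω) ≤ f.fieldRange := bot_le
  refine (Set.finite_range f).subset fun x hx => ?_
  exact RingHom.mem_fieldRange.1 (h1 hx)

/-- **Theorem.**  Let `Ω` be an algebraically closed field of characteristic `p`, `ℓ ≠ p` a prime number and `d`
a natural number.

(1) Let `F` be the function field of a smooth connected variety `X` of dimension `d` over a finite field `k`
and `ρ` the representation of an irreducible lisse sheaf on `X` whose determinant has finite order.  There are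
algebraically independent `y_1, …, y_d ∈ F` such that `F` is finite separable over `𝔽_p(y)` and unramified over
`Spec 𝔽_p[y]` (the normalisation in `F` of this affine space is finite étale over it), and an irreducible
lisse sheaf `σ` on `𝔸^d = Spec 𝔽_p[y]` whose determinant has finite order, such that `ρ` is a quotient of the
restriction of `σ` to `F`.

(2) Q1 is true for all smooth `X` of dimension `d` over all finite fields of characteristic `p` if and only if it
is true for the affine space of dimension `d` over `𝔽_p`. -/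
theorem result (Ω : Type) [Field Ω] [IsAlgClosed Ω] (p : ℕ) [Fact p.Prime] [CharP Ω p] (ℓ : ℕ)
    [Fact ℓ.Prime] (_hℓ : ℓ ≠ p) (d : ℕ) :
    (∀ k F : Subfield Ω, (k : Set Ω).Finite → FunctionField k F d →
      ∀ (V : Type) [AddCommGroup V] [Module (PadicAlgCl ℓ) V] [FiniteDimensional (PadicAlgCl ℓ) V]
        (ρ : Representation (PadicAlgCl ℓ) (Gam F) V), Irr ρ → Cont ρ → DetFinite ρ →
        ExtendsOver k ρ →
        ∃ (y : Fin d → Ω) (hy : fieldAdj ⊥ (Set.range y) ≤ F),
          AlgebraicIndependent (⊥ : Subfield Ω) y ∧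
          (∀ x ∈ F, IsSeparable (fieldAdj ⊥ (Set.range y)) x) ∧
          (∀ P : Ideal (integralClosure (ringAdj ⊥ (Set.range y)) Ω), P.IsPrime →
            ∀ g ∈ Gam (fieldAdj ⊥ (Set.range y)), InInertia (ringAdj ⊥ (Set.range y)) P g →
              g ∈ Gam F) ∧
          ∃ (W : Type) (_ : AddCommGroup W) (_ : Module (PadicAlgCl ℓ) W)
            (_ : FiniteDimensional (PadicAlgCl ℓ) W)
            (σ : Representation (PadicAlgCl ℓ) (Gam (fieldAdj ⊥ (Set.range y))) W), Irr σ ∧
            Cont σ ∧ DetFinite σ ∧ Lisse (ringAdj ⊥ (Set.range y)) σ ∧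
            ∃ f : W →ₗ[PadicAlgCl ℓ] V, Function.Surjective f ∧ Equi (res hy σ) ρ f) ∧
    ((∀ k F : Subfield Ω, (k : Set Ω).Finite → FunctionField k F d → Q1 ℓ k F) ↔
      ∀ t : Fin d → Ω, AlgebraicIndependent (⊥ : Subfield Ω) t → Q1Affine ℓ t) := by
  classical
  have hone : ∀ k F : Subfield Ω, (k : Set Ω).Finite → FunctionField k F d →
      ∀ (V : Type) [AddCommGroup V] [Module (PadicAlgCl ℓ) V] [FiniteDimensional (PadicAlgCl ℓ) V]
        (ρ : Representation (PadicAlgCl ℓ) (Gam F) V), Irr ρ → Cont ρ → DetFinite ρ →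
        ExtendsOver k ρ →
        ∃ (y : Fin d → Ω) (hy : fieldAdj ⊥ (Set.range y) ≤ F),
          AlgebraicIndependent (⊥ : Subfield Ω) y ∧
          (∀ x ∈ F, IsSeparable (fieldAdj ⊥ (Set.range y)) x) ∧
          (∀ P : Ideal (integralClosure (ringAdj ⊥ (Set.range y)) Ω), P.IsPrime →
            ∀ g ∈ Gam (fieldAdj ⊥ (Set.range y)), InInertia (ringAdj ⊥ (Set.range y)) P g →
              g ∈ Gam F) ∧
          ∃ (W : Type) (_ : AddCommGroup W) (_ : Module (PadicAlgCl ℓ) W)
            (_ : FiniteDimensional (PadicAlgCl ℓ) W)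
            (σ : Representation (PadicAlgCl ℓ) (Gam (fieldAdj ⊥ (Set.range y))) W), Irr σ ∧
            Cont σ ∧ DetFinite σ ∧ Lisse (ringAdj ⊥ (Set.range y)) σ ∧
            ∃ f : W →ₗ[PadicAlgCl ℓ] V, Function.Surjective f ∧ Equi (res hy σ) ρ f := by
    rintro k F hk ⟨t, θ, ht, hθ, hF⟩ V _ _ _ ρ h1 h2 h3 ⟨s, hs, hl⟩
    exact reduce p hk t θ ht hθ hF ρ h1 h2 h3 s hs hl
  refine ⟨hone, ⟨fun h t ht => ?_, fun h k F hk hF => ?_⟩⟩
  · intro V _ _ _ ρ h1 h2 h3 h4
    have h5 : FunctionField ⊥ (fieldAdj (⊥ : Subfield Ω) (Set.range t)) d := by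
      refine ⟨t, 0, ht, ?_, ?_⟩
      · have := isSeparable_algebraMap (F := fieldAdj (⊥ : Subfield Ω) (Set.range t)) (K := Ω) 0
        rwa [map_zero] at this
      · apply le_antisymm
        · exact fieldAdj_mono (Set.subset_insert _ _)
        · rw [fieldAdj_le]
          refine ⟨le_fieldAdj _ _, fun x hx => ?_⟩
          rcases Set.mem_insert_iff.1 hx with rfl | hx
          · exact zero_mem _
          · exact mem_fieldAdj hx
    have hcoe : ((Finset.univ.image t : Finset Ω) : Set Ω) = Set.range t := by simp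
    exact h ⊥ _ (bot_finite p) h5 V ρ h1 h2 h3
      ⟨Finset.univ.image t, by rw [hcoe], by rw [hcoe]; exact h4⟩
  · intro V _ _ _ ρ h1 h2 h3 h4
    obtain ⟨y, hy, hyi, -, -, W, i1, i2, i3, σ, hσ1, hσ2, hσ3, hσ4, f, hf, hfe⟩ :=
      hone k F hk hF V ρ h1 h2 h3 h4
    obtain ⟨n, hn⟩ := h y hyi W σ hσ1 hσ2 hσ3 hσ4
    refine ⟨n, geometric_quot f hf ?_ (geometric_res hy W _ hn)⟩
    intro g w
    show f ((chi ℓ (fieldAdj ⊥ (Set.range y)) ⟨g.1, Gam_mono hy g.2⟩) ^ n • σ ⟨g.1, Gam_mono hy g.2⟩ w) =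
      (chi ℓ F g) ^ n • ρ g (f w)
    rw [map_smul]
    congr 1
    exact hfe g w

end Pool.Agent.Results.MP_80bee4_ag.AffineSpaceSuffices
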