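import Pool.Agent.U419.UG.Main
import Pool.Agent.U419.UG.Bound
import Pool.Agent.U419.UG.Fin

/-!
# Irreducible lisse sheaves with residually unipotent geometric monodromy have finite monodromy

Let `k` be a finite field and `X` a normal irreducible variety over `k` of any dimension, with function
field `F` (in the file: any field `k` such that `Gal(F k̄ / F)` is topologically generated by one
element; any extension `F / k`, and `X` is given by the coordinate rings `R ⊆ F` of the members of
an affine open covering). Let `ρ` be an irreducible lisse sheaf of rank `n` on `X`, with determinant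
of finite order, and `F' / F` a finite normal extension such that the reduction of `ρ` modulo `l`
has unipotent monodromy on the normalization `Y_k̄` of `X` in `F' k̄`. Let `C` be the set of
eigenvalues of some element `σ` of the absolute Galois group of `F` on `H ^ 1 (Y_k̄, κ̄)`, `κ`
the residue field of the coefficients. Suppose that

* there is no cycle `α₀, c₁ α₀, c₂ c₁ α₀, …, c_m … c₁ α₀ = α₀` (`1 ≤ m ≤ n`, `c_i ∈ C`) in the set of
  eigenvalues of the reduction of `ρ σ` (for instance, no product of at least one and at most `n`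
  elements of `C` is `1`), or
* `C` consists of roots of a given monic polynomial `P` with integral coefficients such that no product
  of `m` complex roots of `P`, `1 ≤ m ≤ n`, is `1` (weights), and `l` is at least a constant
  `l₀` which depends only on `P` and `n`.

Then `ρ` has finite image, and it is a quotient of `H ^ 0 (Spec E ⊗ Ω)` for a finite extension `E` of
`F`: the question has a positive answer for `ρ`, with `Y = Spec E`, `i = 0` and no Tate twist.
-/

set_option autoImplicit false

open IsLocalRing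

namespace Pool.Agent.Results.MP_80bee4_ag.FiniteMonodromy

/-- an algebraic closure `Ω` of the function field `F` -/
abbrev Om (F : Type) [Field F] : Type := AlgebraicClosure F

/-- the absolute Galois group of `F`, with the Krull topology -/
abbrev GG (F : Type) [Field F] : Type := Gal(AlgebraicClosure F/F)

/-- the geometric group of `F'`: the elements of the absolute Galois group of `F` which fix `F'`
and all elements of `Ω` that are algebraic over `k` -/
def Geom (k : Type) {F : Type} [Field k] [Field F] [Algebra k F]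
    (F' : IntermediateField F (Om F)) : Subgroup (GG F) where
  carrier := {g | (∀ x : Om F, IsAlgebraic k x → g x = x) ∧ ∀ x ∈ F', g x = x}
  mul_mem' := fun {g h} hg hh => ⟨fun x hx => by
    rw [AlgEquiv.mul_apply, hh.1 x hx, hg.1 x hx], fun x hx => by
    rw [AlgEquiv.mul_apply, hh.2 x hx, hg.2 x hx]⟩
  one_mem' := ⟨fun _ _ => rfl, fun _ _ => rfl⟩
  inv_mem' := fun {g} hg => ⟨fun x hx => by
    conv_lhs => rw [← hg.1 x hx]
    exact g.symm_apply_apply x, fun x hx => by
    conv_lhs => rw [← hg.2 x hx]
    exact g.symm_apply_apply x⟩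

/-- the integral closure in `Ω` of the coordinate ring `R` of an affine open subset of `X` -/
noncomputable def intRing {F : Type} [Field F] (R : Subring F) : Subring (Om F) :=
  (integralClosure R (Om F)).toSubring

/-- `g` lies in the inertia group at the ideal `P`: `g y - y` lies in `P` for all `y`. -/
def InInertia {F : Type} [Field F] {R : Subring F} (P : Ideal (intRing R)) (g : GG F) : Prop :=
  ∀ y : intRing R, ∃ z ∈ P, (z : Om F) = g (y : Om F) - (y : Om F)

/-- the union of all inertia groups over `X` (`X` given by the coordinate rings of the members of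
an affine open covering) -/
def Inertia {F : Type} [Field F] (X : Set (Subring F)) : Set (GG F) :=
  {τ | ∃ R ∈ X, ∃ P : Ideal (intRing R), P.IsMaximal ∧ InInertia P τ}

/-- `ρ` is a lisse sheaf on `X` with coefficients in `A`: `A` is a local ring with its adic
topology, with finite residue field of characteristic `l`, and `ρ` is continuous and trivial on the
inertia groups. -/
structure IsLisse {F : Type} [Field F] (X : Set (Subring F)) (l : ℕ) {A : Type} [CommRing A]
    [IsLocalRing A] [TopologicalSpace A] {n : ℕ} (ρ : GG F →* GL (Fin n) A) : Prop where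
  prime : l.Prime
  adic : IsAdic (maximalIdeal A)
  finite : Finite (ResidueField A)
  char : (l : A) ∈ maximalIdeal A
  continuous : Continuous ρ
  inertia : ∀ τ ∈ Inertia X, ρ τ = 1

/-- The reduction of `ρ` is unipotent on `N`: for all `g ∈ N`, some power of `ρ g - 1` has all
entries in the maximal ideal. -/
def ResiduallyUnipotentOn {F : Type} [Field F] (N : Subgroup (GG F)) {A : Type} [CommRing A]
    [IsLocalRing A] {n : ℕ} (ρ : GG F →* GL (Fin n) A) : Prop :=
  ∀ g ∈ N, ∃ M : ℕ, ∀ i j,
    (((ρ g : Matrix (Fin n) (Fin n) A) - 1) ^ M) i j ∈ maximalIdeal A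

/-- The set of eigenvalues of `σ` on `H ^ 1 (Y_k̄, E)`, `Y_k̄` the normalization of `X` in `F' k̄`: the
`c` such that `χ (σ g σ⁻¹) = c χ g` for some nonzero continuous homomorphism `χ` from the geometric
group of `F'` to the (discrete) additive group of `E` which is trivial on the inertia groups. -/
def EigenvaluesOnH1 (k : Type) {F : Type} [Field k] [Field F] [Algebra k F]
    (X : Set (Subring F)) (F' : IntermediateField F (Om F)) (E : Type) [Field E] (σ : GG F) :
    Set E :=
  {c | ∃ χ : Geom k F' → E, (∃ g, χ g ≠ 0) ∧ (∀ g h, χ (g * h) = χ g + χ h) ∧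
    (∃ U : Subgroup (Geom k F'), IsOpen (U : Set (Geom k F')) ∧ ∀ g ∈ U, χ g = 0) ∧
    (∀ τ : Geom k F', (τ : GG F) ∈ Inertia X → χ τ = 0) ∧
    ∀ g h : Geom k F', (h : GG F) = σ * g * σ⁻¹ → χ h = c * χ g}

/-- `α` is an eigenvalue, in an algebraic closure `κ̄` of the residue field `κ`, of the reduction
of `ρ σ`. -/
def ResidualEigenvalue {F : Type} [Field F] {A : Type} [CommRing A] [IsLocalRing A] {n : ℕ}
    (ρ : GG F →* GL (Fin n) A) (σ : GG F) (α : AlgebraicClosure (ResidueField A)) : Prop :=
  (((ρ σ : Matrix (Fin n) (Fin n) A).charpoly.map (residue A)).map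
    (algebraMap (ResidueField A) (AlgebraicClosure (ResidueField A)))).IsRoot α

/-- There are `1 ≤ m ≤ n` and eigenvalues `α 0, …, α m = α 0` of the reduction of `ρ σ` with
`α (i + 1) ∈ C α i` for all `i < m`. -/
def HasCycle {F : Type} [Field F] {A : Type} [CommRing A] [IsLocalRing A] {n : ℕ}
    (ρ : GG F →* GL (Fin n) A) (σ : GG F) (C : Set (AlgebraicClosure (ResidueField A))) : Prop :=
  ∃ (m : ℕ) (α : ℕ → AlgebraicClosure (ResidueField A)), 1 ≤ m ∧ m ≤ n ∧ α m = α 0 ∧
    (∀ i ≤ m, ResidualEigenvalue ρ σ (α i)) ∧ ∀ i < m, ∃ c ∈ C, α (i + 1) = c * α i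

/-- `ρ` is irreducible over `Λ`. -/
def Irreducible {F : Type} [Field F] {n : ℕ} {A : Type} [CommRing A] (Λ : Type) [Field Λ]
    [Algebra A Λ] (ρ : GG F →* GL (Fin n) A) : Prop :=
  ∀ W : Submodule Λ (Fin n → Λ),
    (∀ g, ∀ w ∈ W, Matrix.mulVec ((ρ g : Matrix (Fin n) (Fin n) A).map (algebraMap A Λ)) w ∈ W) →
    W = ⊥ ∨ W = ⊤

/-- The determinant of `ρ` is of finite order. -/
def FiniteDeterminant {F : Type} [Field F] {n : ℕ} {A : Type} [CommRing A]
    (ρ : GG F →* GL (Fin n) A) : Prop :=
  ∃ D : ℕ, 0 < D ∧ ∀ g, (ρ g : Matrix (Fin n) (Fin n) A).det ^ D = 1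

/-- The Galois group of `F k̄` over `F` is topologically generated by `φ`: modulo each open subgroup,
every element is a power of `φ` times an element of the geometric group. -/
def Generates (k : Type) {F : Type} [Field k] [Field F] [Algebra k F] (φ : GG F) : Prop :=
  ∀ U : Subgroup (GG F), IsOpen (U : Set (GG F)) → ∀ g : GG F, ∃ j : ℕ,
    ∃ m ∈ Geom k (⊥ : IntermediateField F (Om F)), ∃ u ∈ U, g = φ ^ j * m * u

/-- the set of `F`-embeddings of `E` into `Ω` -/
def Emb {F : Type} [Field F] (E : IntermediateField F (Om F)) : Type := E →ₐ[F] Om F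

/-- the action of the Galois group on the embeddings: `τ ↦ g τ` -/
noncomputable def act {F : Type} [Field F] {E : IntermediateField F (Om F)} (g : GG F) (τ : Emb E) : Emb E :=
  (g : Om F →ₐ[F] Om F).comp τ

/-- `ρ g` as a matrix over `Λ` -/
noncomputable def matrixOver {F : Type} [Field F] {n : ℕ} {A : Type} [CommRing A] (Λ : Type) [Field Λ]
    [Algebra A Λ] (ρ : GG F →* GL (Fin n) A) (g : GG F) : Matrix (Fin n) (Fin n) Λ :=
  (ρ g : Matrix (Fin n) (Fin n) A).map (algebraMap A Λ)

/-- `ρ` is a quotient of the representation of the Galois group on `H ^ 0 (Spec E ⊗ Ω, Λ)`, that is on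
the functions `u` on the finite set of `F`-embeddings `τ` of `E` into `Ω`, with the action
`(g u) τ = u (g⁻¹ τ)`. -/
def OccursInH0 {F : Type} [Field F] {n : ℕ} {A : Type} [CommRing A] (Λ : Type) [Field Λ]
    [Algebra A Λ] (ρ : GG F →* GL (Fin n) A) (E : IntermediateField F (Om F)) : Prop :=
  ∃ f : (Emb E → Λ) →ₗ[Λ] (Fin n → Λ), Function.Surjective f ∧
    ∀ (g : GG F) (u : Emb E → Λ), f (fun τ => u (act g⁻¹ τ)) = (matrixOver Λ ρ g).mulVec (f u)

/-- no product of at least one and at most `n` complex roots of `P` is `1` -/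
def NoProductIsOne (P : Polynomial ℤ) (n : ℕ) : Prop :=
  ∀ m, 1 ≤ m → m ≤ n → ∀ β : Fin m → ℂ, (∀ i, Polynomial.aeval (β i) P = 0) → ∏ i, β i ≠ 1

/-- `ρ` is a lisse sheaf on `X` with coefficients in `A`, irreducible over the field `Λ` which contains
`A`, with determinant of finite order; `Gal(F k̄ / F)` is topologically generated by one element
(true for finite `k`), and the reduction of `ρ` is unipotent on the geometric group of `F'`. -/
structure IsAdmissible (k : Type) {F : Type} [Field k] [Field F] [Algebra k F]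
    (X : Set (Subring F)) (F' : IntermediateField F (Om F)) (l : ℕ) {A : Type} [CommRing A]
    [IsLocalRing A] [TopologicalSpace A] (Λ : Type) [Field Λ] [Algebra A Λ] {n : ℕ}
    (ρ : GG F →* GL (Fin n) A) : Prop where
  injective : Function.Injective (algebraMap A Λ)
  lisse : IsLisse X l ρ
  irreducible : Irreducible Λ ρ
  determinant : FiniteDeterminant ρ
  cyclic : ∃ φ : GG F, Generates k φ
  unipotent : ResiduallyUnipotentOn (Geom k F') ρ

/-- The set of eigenvalues of `σ` on `H ^ 1 (Y_k̄, κ̄)`, `κ̄` an algebraic closure of the residue field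
of `A`. -/
abbrev CC (k : Type) {F : Type} [Field k] [Field F] [Algebra k F]
    (X : Set (Subring F)) (F' : IntermediateField F (Om F)) (A : Type) [CommRing A]
    [IsLocalRing A] (σ : GG F) : Set (AlgebraicClosure (ResidueField A)) :=
  EigenvaluesOnH1 k X F' (AlgebraicClosure (ResidueField A)) σ

/-- The condition on `σ`: there is no cycle, or `l ≥ l₀` and all eigenvalues of `σ` on
`H ^ 1 (Y_k̄, κ̄)` are roots of `P`. -/
def Condition (P : Polynomial ℤ) (l₀ : ℕ) (k : Type) {F : Type} [Field k] [Field F] [Algebra k F]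
    (X : Set (Subring F)) (F' : IntermediateField F (Om F)) (l : ℕ) {A : Type} [CommRing A]
    [IsLocalRing A] {n : ℕ} (ρ : GG F →* GL (Fin n) A) (σ : GG F) : Prop :=
  ¬ HasCycle ρ σ (CC k X F' A σ) ∨ (l₀ ≤ l ∧ ∀ c ∈ CC k X F' A σ, Polynomial.aeval c P = 0)

/-- The conclusion: `ρ` has finite image and is a quotient of `H ^ 0 (Spec E ⊗ Ω, Λ)` for a finite
extension `E` of `F`. -/
def FiniteAndInH0 {F : Type} [Field F] {n : ℕ} {A : Type} [CommRing A] (Λ : Type) [Field Λ]
    [Algebra A Λ] (ρ : GG F →* GL (Fin n) A) : Prop :=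
  (Set.range ρ).Finite ∧
    ∃ E : IntermediateField F (Om F), FiniteDimensional F E ∧ OccursInH0 Λ ρ E

theorem normal_Geom (k : Type) {F : Type} [Field k] [Field F] [Algebra k F]
    (F' : IntermediateField F (Om F)) [Normal F F'] : (Geom k F').Normal := by
  refine ⟨fun h hh g => ⟨?_, ?_⟩⟩
  · intro x hx
    have h1 : IsAlgebraic k (g⁻¹ x) := by
      obtain ⟨q, hq0, hq⟩ := hx
      refine ⟨q, hq0, ?_⟩
      have h1 := Polynomial.aeval_algHom_apply (g⁻¹.restrictScalars k : Om F ≃ₐ[k] Om F) x q
      rw [hq, map_zero] at h1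
      exact h1
    rw [AlgEquiv.mul_apply, AlgEquiv.mul_apply, hh.1 _ h1]
    exact g.apply_symm_apply x
  · intro x hx
    have h1 : g⁻¹ x ∈ F' := by
      have h2 := IntermediateField.normal_iff_forall_map_le.1 (inferInstance : Normal F F')
        ((g⁻¹ : GG F) : Om F →ₐ[F] Om F)
      exact h2 ⟨x, hx, rfl⟩
    rw [AlgEquiv.mul_apply, AlgEquiv.mul_apply, hh.2 _ h1]
    exact g.apply_symm_apply x


theorem occurs {F : Type} [Field F] {n : ℕ} {A : Type} [CommRing A] (Λ : Type) [Field Λ]
    [Algebra A Λ] (ρ : GG F →* GL (Fin n) A) (E : IntermediateField F (Om F))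
    [FiniteDimensional F E] (hE : ∀ g ∈ E.fixingSubgroup, ρ g = 1) (hirr : Irreducible Λ ρ) :
    OccursInH0 Λ ρ E := by
  classical
  have : Finite (E →ₐ[F] Om F) := inferInstance
  have : Fintype (E →ₐ[F] Om F) := Fintype.ofFinite _
  let r : Matrix (Fin n) (Fin n) A →+* Matrix (Fin n) (Fin n) Λ := (algebraMap A Λ).mapMatrix
  -- lifts
  have hlift : ∀ τ : E →ₐ[F] Om F, ∃ g : GG F, ∀ x : E, g (x : Om F) = τ x := by
    intro τ
    have hnorm : Normal F (Om F) := inferInstance
    let h : Om F →ₐ[F] Om F := AlgHom.liftNormal τ (Om F)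
    have hh : ∀ x : E, h (x : Om F) = τ x := fun x => AlgHom.liftNormal_commutes τ (Om F) x
    exact ⟨AlgEquiv.ofBijective h (AlgHom.normal_bijective F (Om F) (Om F) h), hh⟩
  choose γ hγ using hlift
  have hdep : ∀ g h : GG F, (∀ x : E, g (x : Om F) = h x) → ρ g = ρ h := by
    intro g h hgh
    have h1 : g⁻¹ * h ∈ E.fixingSubgroup := by
      rw [IntermediateField.mem_fixingSubgroup_iff]
      intro x hx
      change g.symm (h x) = x
      rw [← hgh ⟨x, hx⟩]
      exact g.symm_apply_apply x
    have h2 := hE _ h1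
    rw [map_mul, map_inv, inv_mul_eq_one] at h2
    exact h2
  rcases Nat.eq_zero_or_pos n with hn | hn
  · subst hn
    refine ⟨0, fun x => ⟨0, Subsingleton.elim _ _⟩, fun g u => Subsingleton.elim _ _⟩
  let v : Fin n → Λ := Pi.single ⟨0, hn⟩ 1
  have hv : v ≠ 0 := by
    intro h
    have := congrFun h ⟨0, hn⟩
    simp [v] at this
  let f : ((E →ₐ[F] Om F) → Λ) →ₗ[Λ] (Fin n → Λ) :=
    { toFun := fun u => ∑ τ, u τ • (r (ρ (γ τ) : Matrix (Fin n) (Fin n) A)).mulVec v
      map_add' := fun u w => by
        rw [← Finset.sum_add_distrib]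
        exact Finset.sum_congr rfl fun τ _ => by rw [Pi.add_apply, add_smul]
      map_smul' := fun c u => by
        rw [RingHom.id_apply, Finset.smul_sum]
        exact Finset.sum_congr rfl fun τ _ => by rw [Pi.smul_apply, smul_eq_mul, mul_smul] }
  have hf : ∀ u, f u = ∑ τ, u τ • (r (ρ (γ τ) : Matrix (Fin n) (Fin n) A)).mulVec v := fun u => rfl
  have hequi : ∀ (g : GG F) (u : (E →ₐ[F] Om F) → Λ),
      f (fun τ => u (((g⁻¹ : GG F) : Om F →ₐ[F] Om F).comp τ)) =
        Matrix.mulVec ((ρ g : Matrix (Fin n) (Fin n) A).map (algebraMap A Λ)) (f u) := by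
    intro g u
    change _ = (r (ρ g : Matrix (Fin n) (Fin n) A)).mulVec (f u)
    rw [hf, hf, Matrix.mulVec_sum]
    let e : (E →ₐ[F] Om F) ≃ (E →ₐ[F] Om F) :=
      { toFun := fun τ => ((g : GG F) : Om F →ₐ[F] Om F).comp τ
        invFun := fun τ => ((g⁻¹ : GG F) : Om F →ₐ[F] Om F).comp τ
        left_inv := fun τ => by
          ext x
          exact g.symm_apply_apply (τ x)
        right_inv := fun τ => by
          ext x
          exact g.apply_symm_apply (τ x) }
    rw [← Equiv.sum_comp e]
    refine Finset.sum_congr rfl fun τ _ => ?_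
    have h1 : ((g⁻¹ : GG F) : Om F →ₐ[F] Om F).comp (e τ) = τ := e.symm_apply_apply τ
    rw [h1, Matrix.mulVec_smul, Matrix.mulVec_mulVec, ← map_mul, ← Units.val_mul, ← map_mul]
    congr 3
    have h2 : ρ (γ (e τ)) = ρ (g * γ τ) := by
      apply hdep
      intro x
      rw [hγ, AlgEquiv.mul_apply, hγ]
      rfl
    rw [h2]
  have hsur : Function.Surjective f := by
    have h1 := hirr (LinearMap.range f) (by
      rintro g _ ⟨u, rfl⟩
      exact ⟨_, hequi g u⟩)
    rcases h1 with h1 | h1
    · exfalso
      have h2 : f (Pi.single E.val 1) = (r (ρ (γ E.val) : Matrix (Fin n) (Fin n) A)).mulVec v := by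
        rw [hf, Finset.sum_eq_single E.val]
        · simp
        · intro τ _ hτ
          rw [Pi.single_eq_of_ne hτ, zero_smul]
        · intro h
          exact absurd (Finset.mem_univ _) h
      have h3 : f (Pi.single E.val 1) ∈ LinearMap.range f := ⟨_, rfl⟩
      rw [h1, Submodule.mem_bot, h2] at h3
      apply hv
      have h4 : (r ((ρ (γ E.val))⁻¹ : GL (Fin n) A)).mulVec
          ((r (ρ (γ E.val) : Matrix (Fin n) (Fin n) A)).mulVec v) = v := by
        rw [Matrix.mulVec_mulVec, ← map_mul, Units.inv_mul, map_one, Matrix.one_mulVec]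
      rw [← h4, h3, Matrix.mulVec_zero]
    · exact LinearMap.range_eq_top.1 h1
  exact ⟨f, hsur, fun g u => hequi g u⟩

theorem main (k F : Type) [Field k] [Field F] [Algebra k F] (X : Set (Subring F))
    (F' : IntermediateField F (Om F)) [Normal F F'] [FiniteDimensional F F'] (l : ℕ) (A : Type)
    [CommRing A] [IsDomain A] [IsLocalRing A] [IsNoetherianRing A] [TopologicalSpace A] (n : ℕ)
    (Λ : Type) [Field Λ] [IsAlgClosed Λ] [Algebra A Λ] (hΛ : Function.Injective (algebraMap A Λ))
    (ρ : GG F →* GL (Fin n) A) (φ σ : GG F) (hρ : IsLisse X l ρ) (hirr : Irreducible Λ ρ)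
    (hdet : FiniteDeterminant ρ) (hφ : Generates k φ)
    (hres : ResiduallyUnipotentOn (Geom k F') ρ) (h : ¬ HasCycle ρ σ
      (EigenvaluesOnH1 k X F' (AlgebraicClosure (ResidueField A)) σ)) :
    (Set.range ρ).Finite ∧
      ∃ E : IntermediateField F (Om F), FiniteDimensional F E ∧ OccursInH0 Λ ρ E := by
  have hN := normal_Geom k F'
  have hN₀ := normal_Geom k (⊥ : IntermediateField F (Om F))
  have hE : ∀ a ∈ maximalIdeal A, algebraMap A (AlgebraicClosure (ResidueField A)) a = 0 := by
    intro a ha
    rw [IsScalarTower.algebraMap_apply A (ResidueField A) (AlgebraicClosure (ResidueField A))]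
    have : algebraMap A (ResidueField A) a = 0 := (residue_eq_zero_iff a).2 ha
    rw [this, map_zero]
  have hnil := Pool.Agent.U419.UG.nilG (H := Geom k F') hE hρ.prime hρ.adic hρ.finite hρ.char ρ
    hρ.continuous (Inertia X) (fun τ hτ => hρ.inertia τ hτ) (fun g => hres g g.2) σ (by
      rintro ⟨m, α, h1, h2, h3, h4, h5⟩
      refine h ⟨m, α, h1, h2, h3, fun i hi => ?_, h5⟩
      have h6 := h4 i hi
      unfold ResidualEigenvalue
      rw [Polynomial.map_map]
      exact h6)
  have htriv : ∀ g ∈ Geom k F', ρ g = 1 := by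
    refine Pool.Agent.U419.UG.trivial_of_irred hΛ (Geom k F') ρ n ?_ hirr
    intro g hg
    rw [← Submodule.mem_bot A, ← hnil, Submodule.span_pow]
    refine Submodule.subset_span ?_
    rw [Set.mem_pow]
    exact ⟨fun s => ⟨(ρ (g s) : Matrix (Fin n) (Fin n) A) - 1, ⟨⟨g s, hg s⟩, rfl⟩⟩, rfl⟩
  have hgeo : (ρ '' (Geom k (⊥ : IntermediateField F (Om F)) : Set (GG F))).Finite := by
    -- `ρ g` depends only on the restriction of `g` to `F'`
    let r : GG F → (F' →ₐ[F] Om F) := fun g => (g : Om F →ₐ[F] Om F).comp F'.val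
    have hfinite : Finite (F' →ₐ[F] Om F) := inferInstance
    have key : ∀ g ∈ Geom k (⊥ : IntermediateField F (Om F)),
        ∀ h ∈ Geom k (⊥ : IntermediateField F (Om F)), r g = r h → ρ g = ρ h := by
      intro g hg h hh hgh
      have h1 : g⁻¹ * h ∈ Geom k F' := by
        refine ⟨((Geom k (⊥ : IntermediateField F (Om F))).mul_mem
          ((Geom k (⊥ : IntermediateField F (Om F))).inv_mem hg) hh).1, ?_⟩
        intro x hx
        have h2 := AlgHom.congr_fun hgh ⟨x, hx⟩
        have h3 : g x = h x := h2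
        rw [AlgEquiv.mul_apply, ← h3]
        exact g.symm_apply_apply x
      have h2 := htriv _ h1
      rw [map_mul, map_inv, inv_mul_eq_one] at h2
      exact h2
    classical
    let e : (ρ '' (Geom k (⊥ : IntermediateField F (Om F)) : Set (GG F))) → (F' →ₐ[F] Om F) :=
      fun x => r x.2.choose
    have he : Function.Injective e := by
      intro x y hxy
      apply Subtype.ext
      rw [← x.2.choose_spec.2, ← y.2.choose_spec.2]
      exact key _ x.2.choose_spec.1 _ y.2.choose_spec.1 hxy
    have : Finite (ρ '' (Geom k (⊥ : IntermediateField F (Om F)) : Set (GG F))) :=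
      Finite.of_injective e he
    exact Set.toFinite _
  obtain ⟨D, hD, hdet⟩ := hdet
  have hfin := Pool.Agent.U419.UG.finite_image hΛ hρ.adic ρ hρ.continuous
    (Geom k (⊥ : IntermediateField F (Om F))) hgeo φ hφ hirr D hD hdet
  refine ⟨hfin, ?_⟩
  -- the kernel is open
  have hker : IsOpen (ρ.ker : Set (GG F)) := by
    have hk : ∀ f : Set.range ρ, ∃ k, (f : GL (Fin n) A) ≠ 1 →
        Pool.Agent.U419.UG.Rk A n k f ≠ 1 := by
      intro f
      by_cases hf : (f : GL (Fin n) A) = 1
      · exact ⟨0, fun h => absurd hf h⟩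
      · by_contra hcon
        push Not at hcon
        apply hf
        apply Pool.Agent.U419.UG.eq_of_Rk
        intro k
        rw [(hcon k).2, map_one]
    choose k hk using hk
    have : Finite (Set.range ρ) := hfin
    have : Fintype (Set.range ρ) := Fintype.ofFinite _
    have h1 := Pool.Agent.U419.UG.open_ker hρ.adic ρ hρ.continuous (Finset.univ.sup k)
    refine Subgroup.isOpen_mono ?_ h1
    intro g hg
    by_contra hne
    apply hk ⟨ρ g, g, rfl⟩ hne
    have h2 : Pool.Agent.U419.UG.Rk A n (Finset.univ.sup k) (ρ g) =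
        Pool.Agent.U419.UG.Rk A n (Finset.univ.sup k) 1 := by
      rw [map_one]
      exact hg
    have h3 := Pool.Agent.U419.UG.Rk_mono (Finset.le_sup (f := k)
      (Finset.mem_univ ⟨ρ g, g, rfl⟩)) h2
    rw [map_one] at h3
    exact h3
  obtain ⟨E, hEfd, hE⟩ := (krullTopology_mem_nhds_one_iff F (Om F) _).1
    (hker.mem_nhds ρ.ker.one_mem)
  exact ⟨E, hEfd, occurs Λ ρ E (fun g hg => hE hg) hirr⟩

theorem result (P : Polynomial ℤ) (hP : P.Monic) (n : ℕ) (hprod : NoProductIsOne P n) :
    ∃ l₀ : ℕ, ∀ (k F : Type) [Field k] [Field F] [Algebra k F] (X : Set (Subring F))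
      (F' : IntermediateField F (Om F)) [Normal F F'] [FiniteDimensional F F'] (l : ℕ) (A : Type)
      [CommRing A] [IsDomain A] [IsLocalRing A] [IsNoetherianRing A] [TopologicalSpace A]
      (Λ : Type) [Field Λ] [IsAlgClosed Λ] [Algebra A Λ] (ρ : GG F →* GL (Fin n) A) (σ : GG F),
      IsAdmissible k X F' l Λ ρ → Condition P l₀ k X F' l ρ σ → FiniteAndInH0 Λ ρ := by
  obtain ⟨l₀, hl₀⟩ := Pool.Agent.U419.UG.exists_bound P hP n hprod
  refine ⟨l₀, ?_⟩
  rintro k F _ _ _ X F' _ _ l A _ _ _ _ _ Λ _ _ _ ρ σ ⟨hΛ, hρ, hirr, hdet, ⟨φ, hφ⟩, hres⟩ h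
  refine main k F X F' l A n Λ hΛ ρ φ σ hρ hirr hdet hφ hres ?_
  rcases h with h | ⟨hl, hC⟩
  · exact h
  rintro ⟨m, α, h1, h2, h3, h4, h5⟩
  have hlE : ((l : ℕ) : AlgebraicClosure (ResidueField A)) = 0 := by
    have h6 : ((l : ℕ) : ResidueField A) = 0 := by
      have h7 : residue A (l : A) = 0 := (residue_eq_zero_iff _).2 hρ.char
      rw [map_natCast] at h7
      exact h7
    rw [← map_natCast (algebraMap (ResidueField A) (AlgebraicClosure (ResidueField A))), h6,
      map_zero]
  choose! c hc hcα using h5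
  refine hl₀ l hl hρ.prime (AlgebraicClosure (ResidueField A)) hlE m h1 h2 (fun i => c i)
    (fun i => hC _ (hc i i.2)) ?_
  -- the product of the `c i` is `1`
  have h6 : ∀ j ≤ m, α j = (∏ i ∈ Finset.range j, c i) * α 0 := by
    intro j
    induction j with
    | zero => intro _; simp
    | succ j ih =>
      intro hj
      rw [hcα j (by omega), ih (by omega), Finset.prod_range_succ]
      ring
  have h7 := h6 m le_rfl
  rw [h3] at h7
  have h8 : α 0 ≠ 0 := by
    intro h0
    have h9 := h4 0 (by omega)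
    unfold ResidualEigenvalue at h9
    rw [h0, Polynomial.map_map, Polynomial.IsRoot.def, ← Polynomial.coeff_zero_eq_eval_zero,
      Polynomial.coeff_map] at h9
    have h10 : IsUnit ((ρ σ : Matrix (Fin n) (Fin n) A).det) :=
      (Matrix.isUnit_iff_isUnit_det _).1 (ρ σ).isUnit
    have h11 := h10.map (((algebraMap (ResidueField A) (AlgebraicClosure (ResidueField A)))).comp
      (residue A))
    rw [Matrix.det_eq_sign_charpoly_coeff, map_mul, h9, mul_zero] at h11
    exact not_isUnit_zero h11
  rw [Fin.prod_univ_eq_prod_range (fun i => c i) m]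
  have h12 : (∏ i ∈ Finset.range m, c i) * α 0 = 1 * α 0 := by rw [one_mul]; exact h7.symm
  exact mul_right_cancel₀ h8 h12

end Pool.Agent.Results.MP_80bee4_ag.FiniteMonodromy
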