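import Pool.Agent.U849.FO.Geo

/-!
# Irreducible lisse sheaves with a positive proportion of Frobenius elements whose eigenvalue ratios are roots of unity

Let `k` be a finite field and `X` a normal irreducible variety over `k` of any dimension, with function
field `F`, and let `ρ` be an irreducible lisse `ℚbar_l`-sheaf on `X` with determinant of finite order.
Suppose that the ratios of the eigenvalues of `ρ(g)` are roots of unity for a positive proportion of all
`g` in the absolute Galois group of `F`; by Chebotarev's theorem this is the case if it is true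
for the Frobenius elements at the closed points in a set of positive upper density (for example at
supersingular points: all `l'`-adic and `p`-adic absolute values of the ratios are `1`). Then `ρ` has
finite image, and it is a quotient of `H ^ 0 (Y ⊗ Ω)` for `Y = Spec E`, `E` a finite extension of `F`: the
question has a positive answer for `ρ`, with `i = 0` and no Tate twist.

In the file `k` is any field for which `Gal(F k̄ / F)` is topologically generated by one element, and
`ρ` is any irreducible continuous representation over `ℂ_l` (which contains `ℚbar_l`) with determinant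
of finite order, for which the open subgroups of the geometric monodromy group have finite abelianizations
(theorem of Grothendieck and Deligne for irreducible lisse sheaves over finite fields, as the Zariski closure of
the geometric monodromy group has semisimple identity component; not formalized).

Proof. We may consider the adjoint representation and the elements all of whose eigenvalues are roots of
unity. The set of the `x` such that a fixed power of `x` is unipotent is closed, and has positive
Haar measure, so it contains a coset `g U` of an open subgroup. The span `L` of the `l`-adic logarithms of a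
small open normal subgroup is a Lie algebra. Cartan's criterion, applied to the radical of the trace form, shows
that in an irreducible constituent the elements of `g U` have finite order, and then `L` is solvable by
Kreknin's theorem on automorphisms without fixed points. So an open subgroup of the geometric
monodromy group is solvable, and it is finite since the abelianizations are finite. Then some power of a Frobenius
element commutes with the image of the geometric group, is a scalar by Schur's lemma, and of finite order by
the condition on the determinant.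
-/

set_option autoImplicit false

namespace Pool.Agent.Results.MP_80bee4_ag.FiniteOrderRatios

/-- a separable closure `Ω` of the function field `F` -/
abbrev Om (F : Type) [Field F] : Type := SeparableClosure F

/-- the absolute Galois group of `F`, with the Krull topology -/
abbrev GG (F : Type) [Field F] : Type := Gal(SeparableClosure F/F)

/-- the geometric group: the elements of the absolute Galois group of `F` which fix all elements of `Ω`
that are algebraic over `k` -/
def Geom (k F : Type) [Field k] [Field F] [Algebra k F] : Subgroup (GG F) where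
  carrier := {g | ∀ x : Om F, IsAlgebraic k x → g x = x}
  mul_mem' := fun {g h} hg hh x hx => by
    rw [AlgEquiv.mul_apply, hh x hx, hg x hx]
  one_mem' := fun _ _ => rfl
  inv_mem' := fun {g} hg x hx => by
    conv_lhs => rw [← hg x hx]
    exact g.symm_apply_apply x

/-- The Galois group of `F k̄` over `F` is topologically generated by `φ`: modulo each open subgroup,
every element is a power of `φ` times an element of the geometric group. -/
def Generates (k : Type) {F : Type} [Field k] [Field F] [Algebra k F] (φ : GG F) : Prop :=
  ∀ U : Subgroup (GG F), IsOpen (U : Set (GG F)) → ∀ g : GG F, ∃ j : ℕ,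
    ∃ m ∈ Geom k F, ∃ u ∈ U, g = φ ^ j * m * u

section
variable {F : Type} [Field F] {l : ℕ} [Fact l.Prime] {n : ℕ}

/-- the matrix of `ρ g` -/
noncomputable def mat (ρ : GG F →* GL (Fin n) ℂ_[l]) (g : GG F) : Matrix (Fin n) (Fin n) ℂ_[l] :=
  (ρ g : GL (Fin n) ℂ_[l])

/-- `ρ` is irreducible. -/
def Irreducible (ρ : GG F →* GL (Fin n) ℂ_[l]) : Prop :=
  ∀ W : Submodule ℂ_[l] (Fin n → ℂ_[l]), (∀ g, ∀ w ∈ W, (mat ρ g).mulVec w ∈ W) → W = ⊥ ∨ W = ⊤

/-- The determinant of `ρ` is of finite order. -/
def FiniteDeterminant (ρ : GG F →* GL (Fin n) ℂ_[l]) : Prop :=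
  ∃ D : ℕ, 0 < D ∧ ∀ g, (mat ρ g).det ^ D = 1

/-- All ratios of eigenvalues of `ρ g` are roots of unity: some power of `ρ g` is the sum of a scalar and
a nilpotent matrix. -/
def RatiosOfFiniteOrder (ρ : GG F →* GL (Fin n) ℂ_[l]) (g : GG F) : Prop :=
  ∃ k : ℕ, 0 < k ∧ ∃ c : ℂ_[l], IsNilpotent (mat ρ g ^ k - c • (1 : Matrix (Fin n) (Fin n) ℂ_[l]))

/-- The elements with the property `P` have proportion at least `c`: for every open subgroup `U`, every
finite set `A` such that the cosets `a U`, `a ∈ A`, cover all elements with the property `P` has at least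
`c [G : U]` elements, that is, at least `c [G : U]` cosets of `U` contain an element with `P`. -/
def ProportionAtLeast (c : ℝ) (P : GG F → Prop) : Prop :=
  ∀ U : Subgroup (GG F), IsOpen (U : Set (GG F)) → ∀ A : Finset (GG F),
    (∀ g, P g → ∃ a ∈ A, a⁻¹ * g ∈ U) → c * U.index ≤ A.card

/-- Every open subgroup of the image of `f` has a finite abelianization: if `U` is an open subgroup of `H`
and `N` is a closed subgroup of `U` which contains the kernel of `f` and the commutators of `U`, then `N`
has finite index in `U`. -/
def FiniteAbelianizations {H X : Type} [Group H] [TopologicalSpace H] [Group X] (f : H →* X) : Prop :=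
  ∀ U N : Subgroup H, IsOpen (U : Set H) → IsClosed (N : Set H) → N ≤ U → f.ker ≤ N →
    ⁅U, U⁆ ≤ N → N.relIndex U ≠ 0

/-- the set of `F`-embeddings of `E` into `Ω` -/
def Emb (E : IntermediateField F (Om F)) : Type := E →ₐ[F] Om F

/-- the action of the Galois group on the embeddings: `τ ↦ g τ` -/
noncomputable def act {E : IntermediateField F (Om F)} (g : GG F) (τ : Emb E) : Emb E :=
  (g : Om F →ₐ[F] Om F).comp τ

/-- `ρ` is a quotient of the representation of the Galois group on `H ^ 0 (Spec E ⊗ Ω, ℂ_l)`, that is on
the functions `u` on the finite set of `F`-embeddings `τ` of `E` into `Ω`, with the action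
`(g u) τ = u (g⁻¹ τ)`. -/
def OccursInH0 (ρ : GG F →* GL (Fin n) ℂ_[l]) (E : IntermediateField F (Om F)) : Prop :=
  ∃ f : (Emb E → ℂ_[l]) →ₗ[ℂ_[l]] (Fin n → ℂ_[l]), Function.Surjective f ∧
    ∀ (g : GG F) (u : Emb E → ℂ_[l]), f (fun τ => u (act g⁻¹ τ)) = (mat ρ g).mulVec (f u)

theorem occurs (ρ : GG F →* GL (Fin n) ℂ_[l]) (E : IntermediateField F (Om F))
    [FiniteDimensional F E] (hE : ∀ g ∈ E.fixingSubgroup, ρ g = 1) (hirr : Irreducible ρ) :
    OccursInH0 ρ E := by
  classical
  have : Finite (E →ₐ[F] Om F) := inferInstance
  have : Fintype (E →ₐ[F] Om F) := Fintype.ofFinite _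
  -- lifts
  have hlift : ∀ τ : E →ₐ[F] Om F, ∃ g : GG F, ∀ x : E, g (x : Om F) = τ x := by
    intro τ
    have hnorm : Normal F (Om F) := inferInstance
    let h : Om F →ₐ[F] Om F := AlgHom.liftNormal τ (Om F)
    have hh : ∀ x : E, h (x : Om F) = τ x := fun x => AlgHom.liftNormal_commutes τ (Om F) x
    exact ⟨AlgEquiv.ofBijective h (AlgHom.normal_bijective F (Om F) (Om F) h), hh⟩
  choose γ hγ using hlift
  have hdep : ∀ g h : GG F, (∀ x : E, g (x : Om F) = h x) → ρ g = ρ h := by
    intro g h hgh
    have h1 : g⁻¹ * h ∈ E.fixingSubgroup := by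
      rw [IntermediateField.mem_fixingSubgroup_iff]
      intro x hx
      change g.symm (h x) = x
      rw [← hgh ⟨x, hx⟩]
      exact g.symm_apply_apply x
    have h2 := hE _ h1
    rw [map_mul, map_inv, inv_mul_eq_one] at h2
    exact h2
  rcases Nat.eq_zero_or_pos n with hn | hn
  · subst hn
    refine ⟨0, fun x => ⟨0, Subsingleton.elim _ _⟩, fun g u => Subsingleton.elim _ _⟩
  let v : Fin n → ℂ_[l] := Pi.single ⟨0, hn⟩ 1
  have hv : v ≠ 0 := by
    intro h
    have := congrFun h ⟨0, hn⟩
    simp [v] at this
  let f : ((E →ₐ[F] Om F) → ℂ_[l]) →ₗ[ℂ_[l]] (Fin n → ℂ_[l]) :=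
    { toFun := fun u => ∑ τ, u τ • (mat ρ (γ τ)).mulVec v
      map_add' := fun u w => by
        rw [← Finset.sum_add_distrib]
        exact Finset.sum_congr rfl fun τ _ => by rw [Pi.add_apply, add_smul]
      map_smul' := fun c u => by
        rw [RingHom.id_apply, Finset.smul_sum]
        exact Finset.sum_congr rfl fun τ _ => by rw [Pi.smul_apply, smul_eq_mul, mul_smul] }
  have hf : ∀ u, f u = ∑ τ, u τ • (mat ρ (γ τ)).mulVec v := fun u => rfl
  have hmul : ∀ g h, mat ρ g * mat ρ h = mat ρ (g * h) := fun g h => by
    unfold mat
    rw [map_mul, Units.val_mul]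
  have hequi : ∀ (g : GG F) (u : (E →ₐ[F] Om F) → ℂ_[l]),
      f (fun τ => u (((g⁻¹ : GG F) : Om F →ₐ[F] Om F).comp τ)) = (mat ρ g).mulVec (f u) := by
    intro g u
    rw [hf, hf, Matrix.mulVec_sum]
    let e : (E →ₐ[F] Om F) ≃ (E →ₐ[F] Om F) :=
      { toFun := fun τ => ((g : GG F) : Om F →ₐ[F] Om F).comp τ
        invFun := fun τ => ((g⁻¹ : GG F) : Om F →ₐ[F] Om F).comp τ
        left_inv := fun τ => by
          ext x
          exact congrArg _ (g.symm_apply_apply (τ x))
        right_inv := fun τ => by
          ext x
          exact congrArg _ (g.apply_symm_apply (τ x)) }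
    rw [← Equiv.sum_comp e]
    refine Finset.sum_congr rfl fun τ _ => ?_
    have h1 : ((g⁻¹ : GG F) : Om F →ₐ[F] Om F).comp (e τ) = τ := e.symm_apply_apply τ
    rw [h1, Matrix.mulVec_smul, Matrix.mulVec_mulVec, hmul]
    congr 2
    have h2 : ρ (γ (e τ)) = ρ (g * γ τ) := by
      apply hdep
      intro x
      rw [hγ, AlgEquiv.mul_apply, hγ]
      rfl
    unfold mat
    rw [h2]
  have hsur : Function.Surjective f := by
    have h1 := hirr (LinearMap.range f) (by
      rintro g _ ⟨u, rfl⟩
      exact ⟨_, hequi g u⟩)
    rcases h1 with h1 | h1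
    · exfalso
      have h2 : f (Pi.single E.val 1) = (mat ρ (γ E.val)).mulVec v := by
        rw [hf, Finset.sum_eq_single E.val]
        · simp
        · intro τ _ hτ
          rw [Pi.single_eq_of_ne hτ, zero_smul]
        · intro h
          exact absurd (Finset.mem_univ _) h
      have h3 : f (Pi.single E.val 1) ∈ LinearMap.range f := ⟨_, rfl⟩
      rw [h1, Submodule.mem_bot, h2] at h3
      apply hv
      have h4 : (mat ρ (γ E.val)⁻¹).mulVec ((mat ρ (γ E.val)).mulVec v) = v := by
        rw [Matrix.mulVec_mulVec, hmul, inv_mul_cancel]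
        unfold mat
        rw [map_one, Units.val_one, Matrix.one_mulVec]
      rw [← h4, h3, Matrix.mulVec_zero]
    · exact LinearMap.range_eq_top.1 h1
  exact ⟨f, hsur, fun g u => hequi g u⟩

end

theorem normal_Geom (k F : Type) [Field k] [Field F] [Algebra k F] : (Geom k F).Normal := by
  refine ⟨fun h hh g x hx => ?_⟩
  have h1 : IsAlgebraic k (g⁻¹ x) := by
    obtain ⟨q, hq0, hq⟩ := hx
    refine ⟨q, hq0, ?_⟩
    have h1 := Polynomial.aeval_algHom_apply (g⁻¹.restrictScalars k : Om F ≃ₐ[k] Om F) x q
    rw [hq, map_zero] at h1
    exact h1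
  rw [AlgEquiv.mul_apply, AlgEquiv.mul_apply, hh _ h1]
  exact g.apply_symm_apply x

theorem closed_Geom (k F : Type) [Field k] [Field F] [Algebra k F] :
    IsClosed (Geom k F : Set (GG F)) := by
  have h1 : (Geom k F : Set (GG F)) = ⋂ x : {x : Om F // IsAlgebraic k x},
      ((IntermediateField.adjoin F {x.1}).fixingSubgroup : Set (GG F)) := by
    ext g
    rw [Set.mem_iInter]
    constructor
    · intro hg x
      change g ∈ (IntermediateField.adjoin F {x.1}).fixingSubgroup
      rw [IntermediateField.mem_fixingSubgroup_iff]
      have h2 : IntermediateField.adjoin F {x.1} ≤ IntermediateField.fixedField (Subgroup.zpowers g) := by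
        rw [IntermediateField.adjoin_simple_le_iff]
        rintro ⟨h, hh⟩
        obtain ⟨z, rfl⟩ := Subgroup.mem_zpowers_iff.1 hh
        have hz : g ^ z ∈ Geom k F := (Geom k F).zpow_mem hg z
        exact hz x.1 x.2
      intro y hy
      exact h2 hy ⟨g, Subgroup.mem_zpowers g⟩
    · intro hg x hx
      have h2 := hg ⟨x, hx⟩
      change g ∈ (IntermediateField.adjoin F {x}).fixingSubgroup at h2
      rw [IntermediateField.mem_fixingSubgroup_iff] at h2
      exact h2 x (IntermediateField.mem_adjoin_simple_self F x)
  rw [h1]
  refine isClosed_iInter fun x => ?_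
  have hfd : FiniteDimensional F (IntermediateField.adjoin F {x.1}) :=
    IntermediateField.adjoin.finiteDimensional (Algebra.IsIntegral.isIntegral _)
  exact IntermediateField.fixingSubgroup_isClosed _

/-- **Many eigenvalue ratios of finite order.** -/
theorem result (k F : Type) [Field k] [Field F] [Algebra k F] (l : ℕ) [Fact l.Prime] (n : ℕ)
    (ρ : GG F →* GL (Fin n) ℂ_[l]) (hρ : Continuous ρ)
    (hirr : Irreducible ρ) (hdet : FiniteDeterminant ρ)
    -- `Gal(F k̄ / F)` is topologically generated by one element (true for finite `k`)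
    (hcyc : ∃ φ : GG F, Generates k φ)
    -- the open subgroups of the geometric monodromy group have finite abelianizations
    -- (true for lisse sheaves if `k` is finite: Grothendieck, Deligne)
    (hab : FiniteAbelianizations (ρ.comp (Geom k F).subtype))
    -- a positive proportion of the elements have eigenvalue ratios of finite order
    (c : ℝ) (hc : 0 < c) (hprop : ProportionAtLeast c (RatiosOfFiniteOrder ρ)) :
    (Set.range ρ).Finite ∧
      ∃ E : IntermediateField F (Om F), FiniteDimensional F E ∧ OccursInH0 ρ E := by
  classical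
  obtain ⟨U, hUn, hUo, m, hm⟩ := Pool.Agent.U849.FO.gen (p := l) (K := ℂ_[l]) ρ hρ hc
    (fun U hU A hA => hprop U hU A fun g hg => hA g hg)
  have hN := normal_Geom k F
  have hcl := closed_Geom k F
  have hcomp : CompactSpace (Geom k F) := isCompact_iff_compactSpace.1 hcl.isCompact
  have hGT : T1Space (GL (Fin n) ℂ_[l]) := by infer_instance
  have hgeo : (ρ '' (Geom k F : Set (GG F))).Finite := by
    have h1 : (Set.range (ρ.comp (Geom k F).subtype)).Finite := by
      refine Pool.Agent.U849.FO.finite_of_fab (ρ.comp (Geom k F).subtype)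
        (hρ.comp continuous_subtype_val) (U := U.comap (Geom k F).subtype)
        (hUo.preimage continuous_subtype_val) (m := m) ?_ hab
      intro x hx
      have h2 : (x : GG F) ∈ (Pool.Agent.U849.FO.dser (U.comap (Geom k F).subtype) m).map
          (Geom k F).subtype := ⟨x, hx, rfl⟩
      rw [Pool.Agent.U849.FO.map_dser] at h2
      exact hm _ (Pool.Agent.U849.FO.dser_mono (Subgroup.map_comap_le _ _) m h2)
    refine h1.subset ?_
    rintro _ ⟨g, hg, rfl⟩
    exact ⟨⟨g, hg⟩, rfl⟩
  obtain ⟨φ, hφ⟩ := hcyc
  obtain ⟨D, hD, hdet⟩ := hdet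
  have hfin := Pool.Agent.U849.FO.finite_of_geom ρ hρ hirr hN hgeo hφ hD hdet
  refine ⟨hfin, ?_⟩
  have hker := Pool.Agent.U849.FO.open_ker ρ hρ hfin
  obtain ⟨E, hEfd, hE⟩ := (krullTopology_mem_nhds_one_iff F (Om F) _).1
    (hker.mem_nhds ρ.ker.one_mem)
  exact ⟨E, hEfd, occurs ρ E (fun g hg => hE hg) hirr⟩

end Pool.Agent.Results.MP_80bee4_ag.FiniteOrderRatios
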