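import Pool.Agent.U583.ON.SepMain

/-!
# Geometric origin of irreducible representations and elementary cubic hypersurfaces

Let `K` be a finite separable extension of the field `k`, and let `k` be generated by the set `G` of
elements: for example, `K` is a finitely generated extension of `𝔽_p` and `G = {t_1, …, t_d}` is a
separating transcendence basis.  An elementary polynomial is one of the forms `x_i - c`, `c ∈ G` or
`c = 1`, or `x_i + x_j - x_k`, or `x_i x_j - x_k`.  We consider the affine cubic hypersurfaces `Y`:
`∑ y_l g_l(x) = 1` over `K`, with elementary polynomials `g_0, …, g_m` in `x_1, …, x_N`.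

1. They are smooth of dimension `N + m`.
2. For every separated scheme `X` of finite type over `K` and every bound `n₀` there is such a `Y` such
that for all theories of cohomology with compact support (so for all `ℓ` at once), all `n ≤ n₀` and all
simple constituents `A` of `H^n_c(X)` the twist `A(-m)` is a constituent of `H^{n+1+2m}_c(Y)`.
3. A simple object `A` has a Tate twist which is a constituent of the cohomology `H^i(Y)` of some
separated scheme `Y` of finite type over `K`, if and only if this is true with a hypersurface `Y` as
above.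

So in the question about the geometric origin of the irreducible representations `ρ` of the Galois group
of a function field `K` it is enough to look for `ρ(n)` in the cohomology of these hypersurfaces. The
list of the hypersurfaces depends only on `p` and the transcendence degree `d`, not on `K`.
-/

set_option autoImplicit false

open CategoryTheory CategoryTheory.Limits AlgebraicGeometry MvPolynomial
open Pool.Agent.Y116.UV Pool.Agent.U583.ON

universe v u

namespace Pool.Agent.Results.MP_80bee4_ag.GeometricOriginCubics

/-- `Y` is one of the hypersurfaces `∑ y_l g_l(x) = 1` over `K` whose polynomials `g_l` over `k` are of one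
of the forms `x_i - c`, `c = 1` or `c ∈ G`, or `x_i + x_j - x_k`, or `x_i x_j - x_k`. -/
def IsCubic {k : Type} [Field k] (K : Type) [Field K] [Algebra k K] (G : Set k) (Y : Sch K) : Prop :=
  ∃ (N m : ℕ) (g : Fin (m + 1) → MvPolynomial (Fin N) k),
    (∀ l, IsElementary (insert 1 G) (g l)) ∧ Y = cubF K g

theorem result (k K : Type) [Field k] [Field K] [Algebra k K] [FiniteDimensional k K]
    [Algebra.IsSeparable k K] (G : Set k) (hG : Subfield.closure G = ⊤) :
    -- smoothness
    (∀ (N m : ℕ) (g : Fin (m + 1) → MvPolynomial (Fin N) k),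
      FT True (cubF K g) ∧ SmoothOfRelativeDimension (m + N) (cubF K g).hom) ∧
    -- one hypersurface for all simple constituents, all degrees up to `n₀` and all theories
    (∀ X : Sch K, FT True X → ∀ n₀ : ℤ,
      ∃ (N m : ℕ) (g : Fin (m + 1) → MvPolynomial (Fin N) k),
        (∀ l, IsElementary (insert 1 G) (g l)) ∧
        ∀ {𝒜 : Type u} [Category.{v} 𝒜] [Abelian 𝒜] (H : Coh 𝒜 K), IsAdditive H →
          ∀ n : ℤ, n ≤ n₀ → ∀ A : 𝒜, Simple A → IsSubquotient A (H.H n X) →
            IsSubquotient (tpow H.T m A) (H.H (n + 1 + 2 * m) (cubF K g))) ∧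
    -- geometric origin
    ∀ {𝒜 : Type u} [Category.{v} 𝒜] [Abelian 𝒜] (H : Coh 𝒜 K), IsAdditive H →
      ∀ (O : Ordinary H) (A : 𝒜), Simple A →
        (Geometric O (FT True) A ↔ Geometric O (IsCubic K G) A) := by
  refine ⟨fun N m g => ⟨ft_cubS _, smooth_cubS _⟩, fun X hX n₀ => exists_cubF hG X hX n₀,
    fun {𝒜} _ _ H hadd O A hA => ⟨fun h => ?_, ?_⟩⟩
  · obtain ⟨N, m, g, hg, i, a, b, hs⟩ := h.cubF hG hadd O hA
    exact ⟨cubF K g, ⟨N, m, g, hg, rfl⟩, i, a, b, hs⟩
  · rintro ⟨Y, ⟨N, m, g, -, rfl⟩, i, a, b, hs⟩
    exact ⟨cubF K g, ft_cubS _, i, a, b, hs⟩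

end Pool.Agent.Results.MP_80bee4_ag.GeometricOriginCubics
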